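import Pool.Agent.Q160.Schub

/-!
# A Schubert polynomial with a nonnegative SEM expansion is a single SEM

The variable `x_{i+1}` of the problem is `X i` here (`i = 0, 1, 2, …`), and `S_n` with `n = m + 1`
acts on `Fin (m + 1) = {0, …, m}`.
-/

namespace Pool.Agent.Results.MP_c3854d_co.SingleSEM

open MvPolynomial Equiv

/-- The adjacent transposition `s_{i+1}` (it exchanges the positions `i` and `i + 1`). -/
def adj {m : ℕ} (i : Fin m) : Perm (Fin (m + 1)) := swap i.castSucc i.succ

/-- The length of a permutation: its number of inversions. -/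
def len {m : ℕ} (w : Perm (Fin (m + 1))) : ℕ :=
  (Finset.univ.filter (fun p : Fin (m + 1) × Fin (m + 1) => p.1 < p.2 ∧ w p.2 < w p.1)).card

/-- `S` is the family of Schubert polynomials of `S_{m+1}`: `S(w₀) = x_1^m x_2^{m-1} ⋯ x_m`, and
`S(w s_i) = ∂_i S(w) = (S(w) - s_i S(w)) / (x_i - x_{i+1})` whenever `ℓ(w s_i) = ℓ(w) - 1`.
(`Fin.revPerm` is the longest element `w₀`; division is written as a multiplication, which is
the same thing in a domain.) -/
structure IsSchubertFamily (m : ℕ) (S : Perm (Fin (m + 1)) → MvPolynomial ℕ ℤ) : Prop where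
  longest : S Fin.revPerm = ∏ i ∈ Finset.range m, X i ^ (m - i)
  divDiff : ∀ (w : Perm (Fin (m + 1))) (i : Fin m), len (w * adj i) + 1 = len w →
    (X (i : ℕ) - X ((i : ℕ) + 1)) * S (w * adj i)
      = S w - rename (swap (i : ℕ) ((i : ℕ) + 1)) (S w)

/-- `e^k_j`: the elementary symmetric polynomial of degree `j` in the first `k` variables. -/
noncomputable def elem (k j : ℕ) : MvPolynomial ℕ ℤ :=
  ∑ t ∈ Finset.powersetCard j (Finset.range k), ∏ i ∈ t, X i

/-- The index sequences of standard elementary monomials: finitely supported with `a_k ≤ k`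
(so `a_0 = 0`). -/
def Valid (a : ℕ →₀ ℕ) : Prop := ∀ k, a k ≤ k

/-- The standard elementary monomial `e_a = e^1_{a_1} e^2_{a_2} ⋯` (factors with `a_k = 0` are
equal to `1`). -/
noncomputable def sem (a : ℕ →₀ ℕ) : MvPolynomial ℕ ℤ := a.prod (fun k j => elem k j)

lemma family_iff (m : ℕ) (S : Perm (Fin (m + 1)) → MvPolynomial ℕ ℤ) :
    IsSchubertFamily m S ↔ Q160.Schub.Fam m S := by
  constructor
  · intro h
    refine ⟨?_, ?_⟩
    · rw [h.longest, Q160.Kernel.RR_nil]
    · intro w i hi
      have h1 := h.divDiff w i ((Q160.Diamond.inv_mul_iff_desc w i).mpr hi)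
      exact (Q160.DD.dd_unique (Q160.Lam.ne_succ i) h1).symm
  · intro h
    refine ⟨?_, ?_⟩
    · rw [h.top, Q160.Kernel.RR_nil]
    · intro w i hi
      have h1 := h.step w i ((Q160.Diamond.inv_mul_iff_desc w i).mp hi)
      have h2 : S (w * adj i) = Q160.Lam.pd i (S w) := h1
      rw [h2]
      exact Q160.DD.dd_spec _ _ _

/-- **Q1 of MP_c3854d_co, affirmative answer.**  For every `n = m + 1` the Schubert polynomials
`S(w)`, `w ∈ S_n`, are well defined (there is exactly one family satisfying the definition), and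
if `S(w)` is a finite combination of standard elementary monomials with nonnegative integer
coefficients, then `S(w)` is a single standard elementary monomial (one of those in the
combination). -/
theorem result :
    (∀ m : ℕ, ∃! S : Perm (Fin (m + 1)) → MvPolynomial ℕ ℤ, IsSchubertFamily m S) ∧
    (∀ (m : ℕ) (S : Perm (Fin (m + 1)) → MvPolynomial ℕ ℤ), IsSchubertFamily m S →
      ∀ (w : Perm (Fin (m + 1))) (c : (ℕ →₀ ℕ) →₀ ℤ),
        (∀ a ∈ c.support, Valid a) → (∀ a, 0 ≤ c a) → S w = c.sum (fun a z => C z * sem a) →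
        ∃ a ∈ c.support, S w = sem a) := by
  constructor
  · intro m
    obtain ⟨S, hS⟩ := Q160.Schub.exists_fam m
    refine ⟨S, (family_iff m S).mpr hS, ?_⟩
    intro T hT
    exact ((family_iff m T).mp hT).unique hS
  · intro m S hS w c hv hc hw
    exact ((family_iff m S).mp hS).main w c hv hc hw

end Pool.Agent.Results.MP_c3854d_co.SingleSEM
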